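import Pool.Agent.TFC.Codeg

/-! Long paths between two vertices (Erdos-Gallai; with one exceptional vertex Bondy-Jackson),
without block theory. -/

namespace Pool.Agent.H89E

open List Pool.Agent.TF82 Pool.Agent.TFC

universe u

set_option linter.unusedSectionVars false
set_option linter.unusedVariables false

variable {V : Type u} [DecidableEq V]

/-- `W` together with the edge `x y` is 2-connected -/
def Good (G : SimpleGraph V) (W : Finset V) (x y : V) : Prop :=
  ∀ w ∈ W, ∀ v ∈ W, v ≠ w →
    (x ≠ w ∧ Reach G (W.erase w) v x) ∨ (y ≠ w ∧ Reach G (W.erase w) v y)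

theorem Good.symm {G : SimpleGraph V} {W : Finset V} {x y : V} (h : Good G W x y) :
    Good G W y x := fun w hw v hv hne => (h w hw v hv hne).symm

/-- a walk which leaves `D` does so through `e` or `f` -/
theorem exit2 {G : SimpleGraph V} {U D : Finset V} {e f : V}
    (hcl : ∀ a ∈ D, ∀ b ∈ U, G.Adj a b → b ∈ D ∨ b = e ∨ b = f) {u t : V}
    (h : Reach G U u t) (ht : t ∉ D) :
    u ∈ D → (e ∈ U ∧ Reach G (insert e (D ∩ U)) u e) ∨
      (f ∈ U ∧ Reach G (insert f (D ∩ U)) u f) := by
  unfold Reach at h
  induction h using Relation.ReflTransGen.head_induction_on with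
  | refl => exact fun hu => absurd hu ht
  | @head a b hab _ ih =>
    intro ha
    obtain ⟨haU, hbU, hadj⟩ := hab
    rcases hcl a ha b hbU hadj with hb | hb | hb
    · rcases ih hb with ⟨h1, h2⟩ | ⟨h1, h2⟩
      · left
        refine ⟨h1, Relation.ReflTransGen.head ⟨?_, ?_, hadj⟩ h2⟩
        · exact Finset.mem_insert_of_mem (Finset.mem_inter.2 ⟨ha, haU⟩)
        · exact Finset.mem_insert_of_mem (Finset.mem_inter.2 ⟨hb, hbU⟩)
      · right
        refine ⟨h1, Relation.ReflTransGen.head ⟨?_, ?_, hadj⟩ h2⟩
        · exact Finset.mem_insert_of_mem (Finset.mem_inter.2 ⟨ha, haU⟩)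
        · exact Finset.mem_insert_of_mem (Finset.mem_inter.2 ⟨hb, hbU⟩)
    · subst hb
      left
      refine ⟨hbU, Relation.ReflTransGen.single ⟨?_, Finset.mem_insert_self _ _, hadj⟩⟩
      exact Finset.mem_insert_of_mem (Finset.mem_inter.2 ⟨ha, haU⟩)
    · subst hb
      right
      refine ⟨hbU, Relation.ReflTransGen.single ⟨?_, Finset.mem_insert_self _ _, hadj⟩⟩
      exact Finset.mem_insert_of_mem (Finset.mem_inter.2 ⟨ha, haU⟩)

/-- if `D` can only be entered through `w`, then `w` reaches `x` outside `D` -/
theorem avoid {G : SimpleGraph V} {U D : Finset V} {w x : V}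
    (hcl : ∀ a ∈ D, ∀ b ∈ U, G.Adj a b → b ∈ D ∨ b = w) (hx : x ∉ D) {u : V}
    (h : Reach G U u x) : (u ∉ D ∧ Reach G (U \ D) u x) ∨ Reach G (U \ D) w x := by
  unfold Reach at h
  induction h using Relation.ReflTransGen.head_induction_on with
  | refl => exact Or.inl ⟨hx, Relation.ReflTransGen.refl⟩
  | @head a b hab _ ih =>
    obtain ⟨haU, hbU, hadj⟩ := hab
    rcases ih with ⟨hb, h1⟩ | h1
    · by_cases ha : a ∈ D
      · rcases hcl a ha b hbU hadj with h2 | h2
        · exact absurd h2 hb
        · right
          rw [← h2]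
          exact h1
      · left
        refine ⟨ha, Relation.ReflTransGen.head ⟨?_, ?_, hadj⟩ h1⟩
        · exact Finset.mem_sdiff.2 ⟨haU, ha⟩
        · exact Finset.mem_sdiff.2 ⟨hbU, hb⟩
    · exact Or.inr h1

theorem avoid_self {G : SimpleGraph V} {U D : Finset V} {w x : V}
    (hcl : ∀ a ∈ D, ∀ b ∈ U, G.Adj a b → b ∈ D ∨ b = w) (hx : x ∉ D)
    (h : Reach G U w x) : Reach G (U \ D) w x := by
  rcases avoid hcl hx h with h | h
  · exact h.2
  · exact h

/-- joining a path inside `W'` which ends in `w` and a path from `w` -/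
theorem glue {G : SimpleGraph V} {A B : Finset V} {x w y : V} {d : ℕ} {Q : List V}
    (hxA : x ∈ A) (hr : Reach G A x w) (hQ : Seg G Q w y) (hn : Q.Nodup) (hQB : ∀ z ∈ Q, z ∈ B)
    (hdis : ∀ z ∈ A, z ∈ B → z = w) (hlen : d + 1 ≤ Q.length) :
    ∃ Q' : List V, Seg G Q' x y ∧ Q'.Nodup ∧ (∀ z ∈ Q', z ∈ A ∪ B) ∧ d + 1 ≤ Q'.length := by
  obtain ⟨P, h1, h2, h3, h4, h5⟩ := hr.path hxA
  rcases Q with _ | ⟨q, Q⟩
  · have := hQ.hd
    simp at this
  have hq : q = w := by
    have := hQ.hd
    simpa using this
  subst hq
  rcases Q with _ | ⟨q', Q⟩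
  · refine ⟨P, ⟨h2, h3, ?_⟩, h1, fun z hz => Finset.mem_union_left _ (h5 z hz), ?_⟩
    · have := hQ.lt
      simp at this
      rw [h4, this]
    · have : 1 ≤ P.length := by
        rcases P with _ | ⟨p, P⟩
        · simp at h3
        · simp
      simp at hlen
      omega
  · have hch := hQ.ch
    rw [List.isChain_cons_cons] at hch
    have hP : Seg G P x q := ⟨h2, h3, h4⟩
    have hQ2 : Seg G (q' :: Q) q' y := by
      refine ⟨hch.2, rfl, ?_⟩
      have := hQ.lt
      rw [List.getLast?_cons_cons] at this
      exact this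
    refine ⟨P ++ (q' :: Q), hP.append hQ2 hch.1, ?_, ?_, ?_⟩
    · rw [List.nodup_append]
      rw [List.nodup_cons] at hn
      refine ⟨h1, hn.2, ?_⟩
      rintro a ha b hb rfl
      have h6 := hdis a (h5 a ha) (hQB a (List.mem_cons_of_mem _ hb))
      rw [h6] at hb
      exact hn.1 hb
    · intro z hz
      rcases List.mem_append.1 hz with h | h
      · exact Finset.mem_union_left _ (h5 z h)
      · exact Finset.mem_union_right _ (hQB z (List.mem_cons_of_mem _ h))
    · have : 1 ≤ P.length := hP.pos
      simp at hlen ⊢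
      omega

/-- the component of `v` in `U` -/
noncomputable def cmp (G : SimpleGraph V) (U : Finset V) (v : V) : Finset V :=
  @Finset.filter V (fun u => Reach G U v u) (Classical.decPred _) U

theorem mem_cmp {G : SimpleGraph V} {U : Finset V} {v u : V} :
    u ∈ cmp G U v ↔ u ∈ U ∧ Reach G U v u := by
  let _ : DecidablePred (fun u => Reach G U v u) := Classical.decPred _
  unfold cmp
  exact Finset.mem_filter

theorem cmp_closed {G : SimpleGraph V} {U : Finset V} {v a b : V} (ha : a ∈ cmp G U v)
    (hb : b ∈ U) (hab : G.Adj a b) : b ∈ cmp G U v := by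
  rw [mem_cmp] at ha ⊢
  exact ⟨hb, Relation.ReflTransGen.tail ha.2 ⟨ha.1, hb, hab⟩⟩

theorem dU_le_of_sub {G : SimpleGraph V} [DecidableRel G.Adj] {W W' : Finset V} {v : V}
    (h : ∀ t ∈ W, G.Adj v t → t ∈ W') : dU G W v ≤ dU G W' v := by
  unfold dU
  apply Finset.card_le_card
  intro t ht
  rw [Finset.mem_filter] at ht ⊢
  exact ⟨h t ht.1 ht.2, ht.2⟩

theorem dU_erase {G : SimpleGraph V} [DecidableRel G.Adj] {W : Finset V} {y v : V} :
    dU G W v ≤ dU G (W.erase y) v + 1 := by
  unfold dU
  have h1 : W.filter (fun t => G.Adj v t) ⊆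
      insert y ((W.erase y).filter (fun t => G.Adj v t)) := by
    intro t ht
    rw [Finset.mem_filter] at ht
    by_cases h : t = y
    · rw [h]; exact Finset.mem_insert_self _ _
    · apply Finset.mem_insert_of_mem
      rw [Finset.mem_filter, Finset.mem_erase]
      exact ⟨⟨h, ht.1⟩, ht.2⟩
  exact (Finset.card_le_card h1).trans (Finset.card_insert_le _ _)

theorem exists_nb {G : SimpleGraph V} {U : Finset V} {v y : V} (h : Reach G U v y)
    (hne : v ≠ y) : ∃ t ∈ U, G.Adj t y := by
  unfold Reach at h
  rcases Relation.ReflTransGen.cases_tail h with h1 | ⟨t, _, h1, _, h2⟩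
  · exact absurd h1.symm hne
  · exact ⟨t, h1, h2⟩

theorem exists_nb' {G : SimpleGraph V} {U : Finset V} {v y : V} (h : Reach G U v y)
    (hne : v ≠ y) : ∃ t ∈ U, G.Adj v t := by
  obtain ⟨t, h1, h2⟩ := exists_nb h.symm (Ne.symm hne)
  exact ⟨t, h1, h2.symm⟩

/-- a separation when `W` without `y` is not good -/
theorem sep {G : SimpleGraph V} {W : Finset V} {x y y' : V} (hx : x ∈ W) (hy : y ∈ W)
    (hxy : x ≠ y) (hG : Good G W x y) (hy' : y' ∈ W) (hyy' : y' ≠ y) (hxy' : y' ≠ x)
    (hn : ¬ Good G (W.erase y) x y') :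
    ∃ (w : V) (D : Finset V), w ∈ W ∧ w ≠ y ∧ w ∉ D ∧ y ∉ D ∧ x ∉ D ∧ D ⊆ W ∧ D.Nonempty ∧
      (∀ a ∈ D, ∀ b ∈ W.erase y, G.Adj a b → b ∈ D ∨ b = w) ∧
      (insert w (insert y D)).card < W.card ∧ Good G (insert w (insert y D)) w y ∧
      (∀ a ∈ D, Reach G (insert y D) a y) := by
  unfold Good at hn
  push Not at hn
  obtain ⟨w, hw, v, hv, hvw, h1, h2⟩ := hn
  obtain ⟨hwy, hwW⟩ := Finset.mem_erase.1 hw
  obtain ⟨hvy, hvW⟩ := Finset.mem_erase.1 hv
  obtain ⟨D, hD⟩ : ∃ D, D = cmp G ((W.erase y).erase w) v := ⟨_, rfl⟩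
  have hDsub : ∀ a ∈ D, a ≠ w ∧ a ≠ y ∧ a ∈ W := by
    intro a ha
    rw [hD, mem_cmp, Finset.mem_erase, Finset.mem_erase] at ha
    exact ⟨ha.1.1, ha.1.2.1, ha.1.2.2⟩
  have hDr : ∀ a ∈ D, Reach G ((W.erase y).erase w) v a := by
    intro a ha
    rw [hD, mem_cmp] at ha
    exact ha.2
  have hvD : v ∈ D := by
    rw [hD, mem_cmp]
    exact ⟨Finset.mem_erase.2 ⟨hvw, hv⟩, Relation.ReflTransGen.refl⟩
  have hwD : w ∉ D := fun h => (hDsub w h).1 rfl
  have hyD : y ∉ D := fun h => (hDsub y h).2.1 rfl
  have hxD : x ∉ D := fun h => h1 (fun e => hwD (e ▸ h)) (hDr x h)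
  have hyD' : y' ∉ D := fun h => h2 (fun e => hwD (e ▸ h)) (hDr y' h)
  have hcl : ∀ a ∈ D, ∀ b ∈ W.erase y, G.Adj a b → b ∈ D ∨ b = w := by
    intro a ha b hb hab
    by_cases hbw : b = w
    · exact Or.inr hbw
    · left
      rw [hD] at ha ⊢
      exact cmp_closed ha (Finset.mem_erase.2 ⟨hbw, hb⟩) hab
  have hcl2 : ∀ a ∈ D, ∀ b ∈ W, G.Adj a b → b ∈ D ∨ b = w ∨ b = y := by
    intro a ha b hb hab
    by_cases hby : b = y
    · exact Or.inr (Or.inr hby)
    · rcases hcl a ha b (Finset.mem_erase.2 ⟨hby, hb⟩) hab with h | h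
      · exact Or.inl h
      · exact Or.inr (Or.inl h)
  -- every vertex reaches `x` without `y`
  have hall : ∀ u ∈ W, u ≠ y → Reach G (W.erase y) u x := by
    intro u hu huy
    rcases hG y hy u hu huy with h | h
    · exact h.2
    · exact absurd rfl h.1
  have hDw : ∀ a ∈ D, Reach G (insert w D) a w := by
    intro a ha
    have h3 := exit2 (e := w) (f := w) (fun a ha b hb hab => by
      rcases hcl a ha b hb hab with h | h
      · exact Or.inl h
      · exact Or.inr (Or.inl h)) (hall a (hDsub a ha).2.2 (hDsub a ha).2.1) hxD ha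
    have h4 : Reach G (insert w (D ∩ W.erase y)) a w := by
      rcases h3 with h | h
      · exact h.2
      · exact h.2
    exact h4.mono (Finset.insert_subset_insert _ Finset.inter_subset_left)
  have hDy : ∀ a ∈ D, Reach G (insert y D) a y := by
    intro a ha
    obtain ⟨t, ht, hr⟩ : ∃ t, t ∉ D ∧ Reach G (W.erase w) a t := by
      rcases hG w hwW a (hDsub a ha).2.2 (hDsub a ha).1 with h | h
      · exact ⟨x, hxD, h.2⟩
      · exact ⟨y, hyD, h.2⟩
    have h3 := exit2 (e := y) (f := y) (fun a ha b hb hab => by
      rw [Finset.mem_erase] at hb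
      rcases hcl2 a ha b hb.2 hab with h | h | h
      · exact Or.inl h
      · exact absurd h hb.1
      · exact Or.inr (Or.inl h)) hr ht ha
    have h4 : Reach G (insert y (D ∩ W.erase w)) a y := by
      rcases h3 with h | h
      · exact h.2
      · exact h.2
    exact h4.mono (Finset.insert_subset_insert _ Finset.inter_subset_left)
  refine ⟨w, D, hwW, hwy, hwD, hyD, hxD, fun a ha => (hDsub a ha).2.2, ⟨v, hvD⟩, hcl, ?_, ?_, hDy⟩
  · -- proper subset
    apply Finset.card_lt_card
    rw [Finset.ssubset_iff_of_subset]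
    · by_cases hwx : w = x
      · refine ⟨y', hy', ?_⟩
        rw [Finset.mem_insert, Finset.mem_insert]
        rintro (h | h | h)
        · exact hxy' (h.trans hwx)
        · exact hyy' h
        · exact hyD' h
      · refine ⟨x, hx, ?_⟩
        rw [Finset.mem_insert, Finset.mem_insert]
        rintro (h | h | h)
        · exact hwx h.symm
        · exact hxy h
        · exact hxD h
    · intro a ha
      rw [Finset.mem_insert, Finset.mem_insert] at ha
      rcases ha with h | h | h
      · rw [h]; exact hwW
      · rw [h]; exact hy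
      · exact (hDsub a h).2.2
  · -- good
    intro z hz u hu huz
    rw [Finset.mem_insert, Finset.mem_insert] at hz hu
    rcases hz with hz | hz | hz
    · -- z = w
      subst hz
      right
      refine ⟨fun h => hwy h.symm, ?_⟩
      rcases hu with hu | hu | hu
      · exact absurd hu huz
      · rw [hu]; exact Relation.ReflTransGen.refl
      · refine (hDy u hu).mono ?_
        intro a ha
        rw [Finset.mem_insert] at ha
        rw [Finset.mem_erase, Finset.mem_insert, Finset.mem_insert]
        rcases ha with h | h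
        · exact ⟨fun e => hwy (e ▸ h), Or.inr (Or.inl h)⟩
        · exact ⟨(hDsub a h).1, Or.inr (Or.inr h)⟩
    · -- z = y
      subst hz
      left
      refine ⟨hwy, ?_⟩
      rcases hu with hu | hu | hu
      · rw [hu]; exact Relation.ReflTransGen.refl
      · exact absurd hu huz
      · refine (hDw u hu).mono ?_
        intro a ha
        rw [Finset.mem_insert] at ha
        rw [Finset.mem_erase, Finset.mem_insert, Finset.mem_insert]
        rcases ha with h | h
        · exact ⟨fun e => hwy (by rw [← h, e]), Or.inl h⟩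
        · exact ⟨(hDsub a h).2.1, Or.inr (Or.inr h)⟩
    · -- z in D
      have hwz : w ≠ z := fun h => hwD (h ▸ hz)
      have hyz : y ≠ z := fun h => hyD (h ▸ hz)
      rcases hu with hu | hu | hu
      · left
        rw [hu]
        exact ⟨hwz, Relation.ReflTransGen.refl⟩
      · right
        rw [hu]
        exact ⟨hyz, Relation.ReflTransGen.refl⟩
      · obtain ⟨t, ht, hr⟩ : ∃ t, t ∉ D ∧ Reach G (W.erase z) u t := by
          rcases hG z (hDsub z hz).2.2 u (hDsub u hu).2.2 huz with h | h
          · exact ⟨x, hxD, h.2⟩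
          · exact ⟨y, hyD, h.2⟩
        have h3 := exit2 (e := w) (f := y) (fun a ha b hb hab =>
          hcl2 a ha b (Finset.mem_erase.1 hb).2 hab) hr ht hu
        rcases h3 with h | h
        · left
          refine ⟨hwz, h.2.mono ?_⟩
          intro a ha
          rw [Finset.mem_insert, Finset.mem_inter, Finset.mem_erase] at ha
          rw [Finset.mem_erase, Finset.mem_insert, Finset.mem_insert]
          rcases ha with h | h
          · exact ⟨fun e => hwz (by rw [← h, e]), Or.inl h⟩
          · exact ⟨h.2.1, Or.inr (Or.inr h.1)⟩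
        · right
          refine ⟨hyz, h.2.mono ?_⟩
          intro a ha
          rw [Finset.mem_insert, Finset.mem_inter, Finset.mem_erase] at ha
          rw [Finset.mem_erase, Finset.mem_insert, Finset.mem_insert]
          rcases ha with h | h
          · exact ⟨fun e => hyz (by rw [← h, e]), Or.inr (Or.inl h)⟩
          · exact ⟨h.2.1, Or.inr (Or.inr h.1)⟩

/-- one end: either a long path or `z` has only the neighbours `w` and `y` -/
theorem step {G : SimpleGraph V} [DecidableRel G.Adj] {n : ℕ}
    (ih : ∀ (W : Finset V) (x y z : V) (d : ℕ), W.card ≤ n → x ∈ W → y ∈ W → x ≠ y →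
      Good G W x y → (∃ v ∈ W, v ≠ x ∧ v ≠ y ∧ v ≠ z) →
      (∀ v ∈ W, v ≠ x → v ≠ y → v ≠ z → d ≤ dU G W v) →
      ∃ Q : List V, Seg G Q x y ∧ Q.Nodup ∧ (∀ t ∈ Q, t ∈ W) ∧ d + 1 ≤ Q.length)
    {W : Finset V} {x y z : V} {d : ℕ} (hcard : W.card ≤ n + 1) (hx : x ∈ W) (hy : y ∈ W)
    (hxy : x ≠ y) (hG : Good G W x y) (hex : ∃ v ∈ W, v ≠ x ∧ v ≠ y ∧ v ≠ z)
    (hd : ∀ v ∈ W, v ≠ x → v ≠ y → v ≠ z → d ≤ dU G W v) :
    (∃ Q : List V, Seg G Q x y ∧ Q.Nodup ∧ (∀ t ∈ Q, t ∈ W) ∧ d + 1 ≤ Q.length) ∨
      (z ∈ W ∧ z ≠ x ∧ z ≠ y ∧ G.Adj z y ∧ ∃ w, ∀ t ∈ W, G.Adj z t → t = w ∨ t = y) := by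
  obtain ⟨v0, hv0, hv0x, hv0y, hv0z⟩ := hex
  -- a neighbour of `y` other than `x`
  have h1 : Reach G (W.erase x) v0 y := by
    rcases hG x hx v0 hv0 hv0x with h | h
    · exact absurd rfl h.1
    · exact h.2
  obtain ⟨y', hy'W, hy'y⟩ := exists_nb h1 hv0y
  obtain ⟨hy'x, hy'W⟩ := Finset.mem_erase.1 hy'W
  have hy'ne : y' ≠ y := hy'y.ne
  by_cases hG' : Good G (W.erase y) x y'
  · left
    by_cases hex' : ∃ v ∈ W.erase y, v ≠ x ∧ v ≠ y' ∧ v ≠ z
    · have hlt : (W.erase y).card ≤ n := by
        have := Finset.card_erase_lt_of_mem hy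
        omega
      obtain ⟨Q, hQ, hn, hQW, hlen⟩ := ih (W.erase y) x y' z (d - 1) hlt
        (Finset.mem_erase.2 ⟨hxy, hx⟩) (Finset.mem_erase.2 ⟨hy'ne, hy'W⟩) (Ne.symm hy'x) hG' hex'
        (by
          intro v hv hvx hvy' hvz
          obtain ⟨hvy, hvW⟩ := Finset.mem_erase.1 hv
          have h2 := hd v hvW hvx hvy hvz
          have h3 := dU_erase (G := G) (W := W) (y := y) (v := v)
          omega)
      refine ⟨Q ++ [y], hQ.append (Y := [y]) (a2 := y) (b2 := y) ⟨by simp, rfl, rfl⟩ hy'y, ?_, ?_, ?_⟩
      · rw [List.nodup_append]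
        refine ⟨hn, by simp, ?_⟩
        rintro a ha b hb rfl
        rw [List.mem_singleton] at hb
        exact (Finset.mem_erase.1 (hQW a ha)).1 hb
      · intro t ht
        rcases List.mem_append.1 ht with h | h
        · exact (Finset.mem_erase.1 (hQW t h)).2
        · rw [List.mem_singleton] at h
          rw [h]; exact hy
      · simp
        omega
    · -- the small case
      push Not at hex'
      have hv0' : v0 = y' := by
        by_contra h
        exact hv0z (hex' v0 (Finset.mem_erase.2 ⟨hv0y, hv0⟩) hv0x h)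
      subst hv0'
      have hsub : ∀ t ∈ W, t = x ∨ t = y ∨ t = v0 ∨ t = z := by
        intro t ht
        by_contra h
        push Not at h
        exact h.2.2.2 (hex' t (Finset.mem_erase.2 ⟨h.2.1, ht⟩) h.1 h.2.2.1)
      have hdeg := hd v0 hv0 hv0x hv0y hv0z
      have hbound : dU G W v0 ≤ 3 := by
        unfold dU
        have h2 : W.filter (fun t => G.Adj v0 t) ⊆ ({x, y, z} : Finset V) := by
          intro t ht
          rw [Finset.mem_filter] at ht
          simp only [Finset.mem_insert, Finset.mem_singleton]
          rcases hsub t ht.1 with h | h | h | h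
          · exact Or.inl h
          · exact Or.inr (Or.inl h)
          · exact absurd ht.2 (by rw [h]; exact G.loopless.irrefl v0)
          · exact Or.inr (Or.inr h)
        exact (Finset.card_le_card h2).trans Finset.card_le_three
      by_cases hax : G.Adj v0 x
      · by_cases h3 : 3 ≤ d
        · -- all three are neighbours
          have hall : ∀ t ∈ ({x, y, z} : Finset V), t ∈ W ∧ G.Adj v0 t := by
            have h2 : W.filter (fun t => G.Adj v0 t) ⊆ ({x, y, z} : Finset V) := by
              intro t ht
              rw [Finset.mem_filter] at ht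
              simp only [Finset.mem_insert, Finset.mem_singleton]
              rcases hsub t ht.1 with h | h | h | h
              · exact Or.inl h
              · exact Or.inr (Or.inl h)
              · exact absurd ht.2 (by rw [h]; exact G.loopless.irrefl v0)
              · exact Or.inr (Or.inr h)
            have h5 : ({x, y, z} : Finset V).card ≤ (W.filter (fun t => G.Adj v0 t)).card := by
              have h6 : ({x, y, z} : Finset V).card ≤ 3 := Finset.card_le_three
              have h7 : 3 ≤ (W.filter (fun t => G.Adj v0 t)).card := by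
                unfold dU at hdeg; omega
              omega
            have h8 := Finset.eq_of_subset_of_card_le h2 h5
            intro t ht
            rw [← h8, Finset.mem_filter] at ht
            exact ht
          have hzx : z ≠ x := by
            rintro rfl
            have h7 : 3 ≤ (W.filter (fun t => G.Adj v0 t)).card := by
              unfold dU at hdeg; omega
            have h2 : W.filter (fun t => G.Adj v0 t) ⊆ ({z, y} : Finset V) := by
              intro t ht
              rw [Finset.mem_filter] at ht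
              simp only [Finset.mem_insert, Finset.mem_singleton]
              rcases hsub t ht.1 with h | h | h | h
              · exact Or.inl h
              · exact Or.inr h
              · exact absurd ht.2 (by rw [h]; exact G.loopless.irrefl v0)
              · exact Or.inl h
            have h9 := (Finset.card_le_card h2).trans Finset.card_le_two
            omega
          have hzy : z ≠ y := by
            rintro rfl
            have h7 : 3 ≤ (W.filter (fun t => G.Adj v0 t)).card := by
              unfold dU at hdeg; omega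
            have h2 : W.filter (fun t => G.Adj v0 t) ⊆ ({x, z} : Finset V) := by
              intro t ht
              rw [Finset.mem_filter] at ht
              simp only [Finset.mem_insert, Finset.mem_singleton]
              rcases hsub t ht.1 with h | h | h | h
              · exact Or.inl h
              · exact Or.inr h
              · exact absurd ht.2 (by rw [h]; exact G.loopless.irrefl v0)
              · exact Or.inr h
            have h9 := (Finset.card_le_card h2).trans Finset.card_le_two
            omega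
          obtain ⟨hzW, hvz⟩ := hall z (by simp)
          -- `z` is adjacent to `x` or `y`
          obtain ⟨t, htW, hzt⟩ : ∃ t ∈ W.erase v0, G.Adj z t := by
            rcases hG v0 hv0 z hzW (Ne.symm hv0z) with h | h
            · exact exists_nb' h.2 hzx
            · exact exists_nb' h.2 hzy
          obtain ⟨htv, htW⟩ := Finset.mem_erase.1 htW
          rcases hsub t htW with h | h | h | h
          · subst h
            refine ⟨[t, z, v0, y], ⟨?_, rfl, rfl⟩, ?_, ?_, by simp; omega⟩
            · simp only [List.isChain_cons_cons, List.isChain_singleton, and_true]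
              exact ⟨hzt.symm, hvz.symm, hy'y⟩
            · simp only [List.nodup_cons, List.mem_cons, List.not_mem_nil, or_false, not_or,
                not_false_eq_true, and_true, List.nodup_nil]
              exact ⟨⟨Ne.symm hzx, Ne.symm hv0x, hxy⟩, ⟨Ne.symm hv0z, hzy⟩, hv0y⟩
            · intro s hs
              simp only [List.mem_cons, List.not_mem_nil, or_false] at hs
              rcases hs with h | h | h | h <;> rw [h] <;> assumption
          · subst h
            refine ⟨[x, v0, z, t], ⟨?_, rfl, rfl⟩, ?_, ?_, by simp; omega⟩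
            · simp only [List.isChain_cons_cons, List.isChain_singleton, and_true]
              exact ⟨hax.symm, hvz, hzt⟩
            · simp only [List.nodup_cons, List.mem_cons, List.not_mem_nil, or_false, not_or,
                not_false_eq_true, and_true, List.nodup_nil]
              exact ⟨⟨Ne.symm hv0x, Ne.symm hzx, hxy⟩, ⟨hv0z, hv0y⟩, hzy⟩
            · intro s hs
              simp only [List.mem_cons, List.not_mem_nil, or_false] at hs
              rcases hs with h | h | h | h <;> rw [h] <;> assumption
          · exact absurd h htv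
          · rw [h] at hzt
            exact absurd hzt (G.loopless.irrefl z)
        · refine ⟨[x, v0, y], ⟨?_, rfl, rfl⟩, ?_, ?_, by simp; omega⟩
          · simp only [List.isChain_cons_cons, List.isChain_singleton, and_true]
            exact ⟨hax.symm, hy'y⟩
          · simp only [List.nodup_cons, List.mem_cons, List.not_mem_nil, or_false, not_or,
              not_false_eq_true, and_true, List.nodup_nil]
            exact ⟨⟨Ne.symm hv0x, hxy⟩, hv0y⟩
          · intro s hs
            simp only [List.mem_cons, List.not_mem_nil, or_false] at hs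
            rcases hs with h | h | h <;> rw [h] <;> assumption
      · -- `v0` is not adjacent to `x`: path x z v0 y
        have h2 : Reach G (W.erase y) v0 x := by
          rcases hG y hy v0 hv0 hv0y with h | h
          · exact h.2
          · exact absurd rfl h.1
        obtain ⟨t, htW, hvt⟩ := exists_nb' h2 hv0x
        obtain ⟨s, hsW, hsx⟩ := exists_nb h2 hv0x
        have ht : t = z := by
          obtain ⟨hty, htW⟩ := Finset.mem_erase.1 htW
          rcases hsub t htW with h | h | h | h
          · exact absurd (h ▸ hvt) hax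
          · exact absurd h hty
          · exact absurd hvt (by rw [h]; exact G.loopless.irrefl v0)
          · exact h
        have hs : s = z := by
          obtain ⟨hsy, hsW⟩ := Finset.mem_erase.1 hsW
          rcases hsub s hsW with h | h | h | h
          · exact absurd hsx (by rw [h]; exact G.loopless.irrefl x)
          · exact absurd h hsy
          · exact absurd (h ▸ hsx) hax
          · exact h
        rw [ht] at hvt htW
        rw [hs] at hsx
        obtain ⟨hzy, hzW⟩ := Finset.mem_erase.1 htW
        have hzx : z ≠ x := hsx.ne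
        refine ⟨[x, z, v0, y], ⟨?_, rfl, rfl⟩, ?_, ?_, by simp; omega⟩
        · simp only [List.isChain_cons_cons, List.isChain_singleton, and_true]
          exact ⟨hsx.symm, hvt.symm, hy'y⟩
        · simp only [List.nodup_cons, List.mem_cons, List.not_mem_nil, or_false, not_or,
            not_false_eq_true, and_true, List.nodup_nil]
          exact ⟨⟨Ne.symm hzx, Ne.symm hv0x, hxy⟩, ⟨Ne.symm hv0z, hzy⟩, hv0y⟩
        · intro s hs
          simp only [List.mem_cons, List.not_mem_nil, or_false] at hs
          rcases hs with h | h | h | h <;> rw [h] <;> assumption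
  · obtain ⟨w, D, hwW, hwy, hwD, hyD, hxD, hDW, hDne, hcl, hlt, hG2, hDy⟩ :=
      sep hx hy hxy hG hy'W hy'ne hy'x hG'
    by_cases hreg : ∃ v ∈ D, v ≠ z
    · left
      obtain ⟨v, hvD, hvz⟩ := hreg
      obtain ⟨Q, hQ, hn, hQW, hlen⟩ := ih (insert w (insert y D)) w y z d (by omega)
        (Finset.mem_insert_self _ _)
        (Finset.mem_insert_of_mem (Finset.mem_insert_self _ _)) hwy hG2
        ⟨v, Finset.mem_insert_of_mem (Finset.mem_insert_of_mem hvD),
          fun h => hwD (h ▸ hvD), fun h => hyD (h ▸ hvD), hvz⟩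
        (by
          intro u hu huw huy huz
          rw [Finset.mem_insert, Finset.mem_insert] at hu
          have huD : u ∈ D := by tauto
          have hux : u ≠ x := fun h => hxD (h ▸ huD)
          refine (hd u (hDW huD) hux huy huz).trans (dU_le_of_sub ?_)
          intro t ht hut
          rw [Finset.mem_insert, Finset.mem_insert]
          by_cases hty : t = y
          · exact Or.inr (Or.inl hty)
          · rcases hcl u huD t (Finset.mem_erase.2 ⟨hty, ht⟩) hut with h | h
            · exact Or.inr (Or.inr h)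
            · exact Or.inl h)
      -- from `x` to `w`
      have hxw : Reach G ((W.erase y) \ D) x w := by
        have h2 : Reach G (W.erase y) w x := by
          rcases hG y hy w hwW hwy with h | h
          · exact h.2
          · exact absurd rfl h.1
        exact (avoid_self hcl hxD h2).symm
      obtain ⟨Q', h1, h2, h3, h4⟩ := glue (d := d) (A := (W.erase y) \ D)
        (B := insert w (insert y D)) (Finset.mem_sdiff.2 ⟨Finset.mem_erase.2 ⟨hxy, hx⟩, hxD⟩)
        hxw hQ hn hQW (by
          intro t ht ht'
          rw [Finset.mem_sdiff, Finset.mem_erase] at ht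
          rw [Finset.mem_insert, Finset.mem_insert] at ht'
          tauto) hlen
      refine ⟨Q', h1, h2, ?_, h4⟩
      intro t ht
      rcases Finset.mem_union.1 (h3 t ht) with h | h
      · exact (Finset.mem_erase.1 (Finset.mem_sdiff.1 h).1).2
      · rw [Finset.mem_insert, Finset.mem_insert] at h
        rcases h with h | h | h
        · rw [h]; exact hwW
        · rw [h]; exact hy
        · exact hDW h
    · right
      push Not at hreg
      obtain ⟨a, ha⟩ := hDne
      have haz := hreg a ha
      rw [haz] at ha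
      have hzx : z ≠ x := fun h => hxD (h ▸ ha)
      have hzy : z ≠ y := fun h => hyD (h ▸ ha)
      refine ⟨hDW ha, hzx, hzy, ?_, w, ?_⟩
      · obtain ⟨t, ht, hzt⟩ := exists_nb' (hDy z ha) hzy
        rw [Finset.mem_insert] at ht
        rcases ht with h | h
        · rw [← h]; exact hzt
        · rw [hreg t h] at hzt
          exact absurd hzt (G.loopless.irrefl z)
      · intro t ht hzt
        by_cases hty : t = y
        · exact Or.inr hty
        · rcases hcl z ha t (Finset.mem_erase.2 ⟨hty, ht⟩) hzt with h | h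
          · rw [hreg t h] at hzt
            exact absurd hzt (G.loopless.irrefl z)
          · exact Or.inl h

/-- walks may avoid a vertex whose neighbours are `x` and `y` only -/
theorem avoid_z {G : SimpleGraph V} {U : Finset V} {x y z : V}
    (hN : ∀ t ∈ U, G.Adj z t → t = x ∨ t = y) {u t : V} (ht : t = x ∨ t = y) (hzx : z ≠ x)
    (hzy : z ≠ y) (hu : u ≠ z) (h : Reach G U u t) :
    (u = x ∨ Reach G (U.erase z) u x ∧ x ∈ U) ∨ (u = y ∨ Reach G (U.erase z) u y ∧ y ∈ U) := by
  unfold Reach at h
  induction h using Relation.ReflTransGen.head_induction_on with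
  | refl =>
    rcases ht with h | h
    · exact Or.inl (Or.inl h)
    · exact Or.inr (Or.inl h)
  | @head a b hab _ ih =>
    obtain ⟨haU, hbU, hadj⟩ := hab
    by_cases hbz : b = z
    · rw [hbz] at hadj
      rcases hN a haU hadj.symm with h | h
      · exact Or.inl (Or.inl h)
      · exact Or.inr (Or.inl h)
    · have hst : Reach G (U.erase z) a b :=
        Relation.ReflTransGen.single ⟨Finset.mem_erase.2 ⟨hu, haU⟩,
          Finset.mem_erase.2 ⟨hbz, hbU⟩, hadj⟩
      rcases ih hbz with (h | h) | (h | h)
      · subst h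
        exact Or.inl (Or.inr ⟨hst, hbU⟩)
      · exact Or.inl (Or.inr ⟨hst.trans h.1, h.2⟩)
      · subst h
        exact Or.inr (Or.inr ⟨hst, hbU⟩)
      · exact Or.inr (Or.inr ⟨hst.trans h.1, h.2⟩)

/-- Erdos-Gallai / Bondy-Jackson: a path with at least `d + 1` vertices, where the degrees of
`x`, `y` and of one more vertex `z` may be small -/
theorem egz {G : SimpleGraph V} [DecidableRel G.Adj] : ∀ (n : ℕ) (W : Finset V) (x y z : V)
    (d : ℕ), W.card ≤ n → x ∈ W → y ∈ W → x ≠ y → Good G W x y →
    (∃ v ∈ W, v ≠ x ∧ v ≠ y ∧ v ≠ z) →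
    (∀ v ∈ W, v ≠ x → v ≠ y → v ≠ z → d ≤ dU G W v) →
    ∃ Q : List V, Seg G Q x y ∧ Q.Nodup ∧ (∀ t ∈ Q, t ∈ W) ∧ d + 1 ≤ Q.length := by
  intro n
  induction n with
  | zero =>
    intro W x y z d hc hx
    have := Finset.card_pos.2 ⟨x, hx⟩
    omega
  | succ n ih =>
    intro W x y z d hcard hx hy hxy hG hex hd
    rcases step ih hcard hx hy hxy hG hex hd with h | ⟨hzW, hzx, hzy, hzadj, w, hw⟩
    · exact h
    obtain ⟨v0, hv0, h01, h02, h03⟩ := hex
    rcases step ih hcard hy hx hxy.symm hG.symm ⟨v0, hv0, h02, h01, h03⟩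
      (fun v hv h1 h2 h3 => hd v hv h2 h1 h3) with h | ⟨_, _, _, hzadj', w', hw'⟩
    · obtain ⟨Q, h1, h2, h3, h4⟩ := h
      exact ⟨Q.reverse, h1.rev, List.nodup_reverse.2 h2,
        fun t ht => h3 t (List.mem_reverse.1 ht), by simpa using h4⟩
    -- the neighbours of `z` are `x` and `y`
    have hwx : w = x := by
      rcases hw x hx hzadj' with h | h
      · exact h.symm
      · exact absurd h hxy
    have hN : ∀ t ∈ W, G.Adj z t → t = x ∨ t = y := by
      intro t ht h
      rw [← hwx]
      exact hw t ht h
    have hG2 : Good G (W.erase z) x y := by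
      intro a ha u hu hua
      obtain ⟨haz, haW⟩ := Finset.mem_erase.1 ha
      obtain ⟨huz, huW⟩ := Finset.mem_erase.1 hu
      obtain ⟨t, ht, hr⟩ : ∃ t, (t = x ∨ t = y) ∧ Reach G (W.erase a) u t := by
        rcases hG a haW u huW hua with h | h
        · exact ⟨x, Or.inl rfl, h.2⟩
        · exact ⟨y, Or.inr rfl, h.2⟩
      have h5 := avoid_z (U := W.erase a) (x := x) (y := y) (z := z)
        (fun t ht h => hN t (Finset.mem_erase.1 ht).2 h) ht hzx hzy huz hr
      have e : (W.erase a).erase z = (W.erase z).erase a := by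
        ext b
        simp only [Finset.mem_erase]
        tauto
      rw [e] at h5
      rcases h5 with (h | h) | (h | h)
      · left
        exact ⟨fun e => hua (h.trans e), by rw [h]; exact Relation.ReflTransGen.refl⟩
      · left
        exact ⟨(Finset.mem_erase.1 h.2).1, h.1⟩
      · right
        exact ⟨fun e => hua (h.trans e), by rw [h]; exact Relation.ReflTransGen.refl⟩
      · right
        exact ⟨(Finset.mem_erase.1 h.2).1, h.1⟩
    obtain ⟨Q, h1, h2, h3, h4⟩ := ih (W.erase z) x y z d (by
        have := Finset.card_erase_lt_of_mem hzW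
        omega) (Finset.mem_erase.2 ⟨Ne.symm hzx, hx⟩) (Finset.mem_erase.2 ⟨Ne.symm hzy, hy⟩) hxy
      hG2 ⟨v0, Finset.mem_erase.2 ⟨h03, hv0⟩, h01, h02, h03⟩ (by
        intro v hv hvx hvy hvz
        refine (hd v (Finset.mem_erase.1 hv).2 hvx hvy hvz).trans (dU_le_of_sub ?_)
        intro t ht hvt
        rw [Finset.mem_erase]
        refine ⟨?_, ht⟩
        rintro rfl
        rcases hN v (Finset.mem_erase.1 hv).2 hvt.symm with h | h
        · exact hvx h
        · exact hvy h)
    exact ⟨Q, h1, h2, fun t ht => (Finset.mem_erase.1 (h3 t ht)).2, h4⟩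

end Pool.Agent.H89E
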