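import Pool.Agent.H89E.EG

/-! In a connected vertex set with large degrees there is a leaf part all of whose vertices are
joined by long paths to all other vertices. -/

namespace Pool.Agent.H89E

open List Pool.Agent.TF82 Pool.Agent.TFC

universe u

set_option linter.unusedSectionVars false
set_option linter.unusedVariables false

variable {V : Type u} [DecidableEq V]

theorem self_mem_cmp {G : SimpleGraph V} {U : Finset V} {v : V} (hv : v ∈ U) : v ∈ cmp G U v :=
  mem_cmp.2 ⟨hv, Relation.ReflTransGen.refl⟩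

theorem cmp_sub {G : SimpleGraph V} {U : Finset V} {v : V} : cmp G U v ⊆ U :=
  fun _ h => (mem_cmp.1 h).1

/-- a regular vertex different from three given ones, where the third may be absent -/
theorem exists_nb_ne {G : SimpleGraph V} [DecidableRel G.Adj] {W : Finset V} {v a b : V}
    (h : 3 ≤ dU G W v) : ∃ t ∈ W, G.Adj v t ∧ t ≠ a ∧ t ≠ b := by
  by_contra hn
  push Not at hn
  have h2 : W.filter (fun t => G.Adj v t) ⊆ ({a, b} : Finset V) := by
    intro t ht
    rw [Finset.mem_filter] at ht
    simp only [Finset.mem_insert, Finset.mem_singleton]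
    by_cases hta : t = a
    · exact Or.inl hta
    · exact Or.inr (hn t ht.1 ht.2 hta)
  have h3 := (Finset.card_le_card h2).trans Finset.card_le_two
  unfold dU at h
  omega

/-- no cut vertex: any two vertices are joined by a long path -/
theorem eg_two {G : SimpleGraph V} [DecidableRel G.Adj] {Z : Finset V} {d : ℕ} (hd3 : 3 ≤ d)
    (hd : ∀ v ∈ Z, d ≤ dU G Z v)
    (h2 : ∀ w ∈ Z, ∀ a ∈ Z, ∀ b ∈ Z, a ≠ w → b ≠ w → Reach G (Z.erase w) a b)
    {x y : V} (hx : x ∈ Z) (hy : y ∈ Z) (hxy : x ≠ y) :
    ∃ Q : List V, Seg G Q x y ∧ Q.Nodup ∧ (∀ t ∈ Q, t ∈ Z) ∧ d + 1 ≤ Q.length := by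
  apply egz Z.card Z x y x d le_rfl hx hy hxy
  · intro w hw v hv hvw
    by_cases hxw : x = w
    · right
      have hyw : y ≠ w := fun h => hxy (hxw.trans h.symm)
      exact ⟨hyw, h2 w hw v hv y hy hvw hyw⟩
    · left
      exact ⟨hxw, h2 w hw v hv x hx hvw hxw⟩
  · obtain ⟨t, htZ, _, h3, h4⟩ := exists_nb_ne (a := x) (b := y) (hd3.trans (hd x hx))
    exact ⟨t, htZ, h3, h4, h3⟩
  · intro v hv _ _ _
    exact hd v hv

/-- a part `D` of `Z` which is attached to the rest of `Z` at one vertex `b` only -/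
def Part (G : SimpleGraph V) (Z D : Finset V) (b : V) : Prop :=
  D.Nonempty ∧ D ⊆ Z ∧ b ∈ Z ∧ b ∉ D ∧ (∃ r ∈ Z, r ∉ D ∧ r ≠ b) ∧
    ∀ a ∈ D, ∀ t ∈ Z, G.Adj a t → t ∈ D ∨ t = b

/-- the smallest part has no cut vertex -/
theorem part_two {G : SimpleGraph V} {Z D : Finset V} {b : V} (hP : Part G Z D b)
    (hconn : ∀ a ∈ Z, ∀ c ∈ Z, Reach G Z a c)
    (hmin : ∀ D' b', Part G Z D' b' → D.card ≤ D'.card) :
    ∀ w ∈ insert b D, ∀ a ∈ insert b D, ∀ c ∈ insert b D, a ≠ w → c ≠ w →
      Reach G ((insert b D).erase w) a c := by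
  obtain ⟨hne, hsub, hb, hbD, ⟨r, hrZ, hrD, hrb⟩, hcl⟩ := hP
  intro w hw
  by_cases hwb : w = b
  · subst hwb
    -- `D` is connected
    have hkey : ∀ a ∈ D, ∀ c ∈ D, Reach G D a c := by
      intro a ha c hc
      by_contra hcon
      have hlt : (cmp G D a).card < D.card := by
        apply Finset.card_lt_card
        rw [Finset.ssubset_iff_of_subset cmp_sub]
        exact ⟨c, hc, fun h => hcon (mem_cmp.1 h).2⟩
      have := hmin (cmp G D a) w ⟨⟨a, self_mem_cmp ha⟩, cmp_sub.trans hsub, hb,
        fun h => hbD (cmp_sub h), ⟨r, hrZ, fun h => hrD (cmp_sub h), hrb⟩, by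
          intro u hu t ht hut
          rcases hcl u (cmp_sub hu) t ht hut with h | h
          · exact Or.inl (cmp_closed hu h hut)
          · exact Or.inr h⟩
      omega
    intro a ha c hc haw hcw
    rw [Finset.mem_insert] at ha hc
    have h1 := hkey a (by tauto) c (by tauto)
    refine h1.mono ?_
    intro u hu
    exact Finset.mem_erase.2 ⟨fun h => hbD (h ▸ hu), Finset.mem_insert_of_mem hu⟩
  · have hwD : w ∈ D := by
      rw [Finset.mem_insert] at hw
      tauto
    -- everything reaches `b`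
    have hkey : ∀ a ∈ insert b D, a ≠ w → Reach G ((insert b D).erase w) a b := by
      intro a ha haw
      by_contra hcon
      obtain ⟨E, hE⟩ : ∃ E, E = cmp G ((insert b D).erase w) a := ⟨_, rfl⟩
      have haE : a ∈ E := by
        rw [hE]
        exact self_mem_cmp (Finset.mem_erase.2 ⟨haw, ha⟩)
      have hbE : b ∉ E := by
        intro h
        rw [hE, mem_cmp] at h
        exact hcon h.2
      have hED : ∀ u ∈ E, u ∈ D ∧ u ≠ w := by
        intro u hu
        have h1 : u ∈ (insert b D).erase w := by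
          rw [hE] at hu
          exact cmp_sub hu
        rw [Finset.mem_erase, Finset.mem_insert] at h1
        refine ⟨?_, h1.1⟩
        rcases h1.2 with h | h
        · exact absurd (h ▸ hu) hbE
        · exact h
      have hlt : E.card < D.card := by
        apply Finset.card_lt_card
        rw [Finset.ssubset_iff_of_subset (fun u hu => (hED u hu).1)]
        exact ⟨w, hwD, fun h => (hED w h).2 rfl⟩
      have := hmin E w ⟨⟨a, haE⟩, fun u hu => hsub (hED u hu).1, hsub hwD,
        fun h => (hED w h).2 rfl, ⟨b, hb, hbE, fun h => hwb h.symm⟩, by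
          intro u hu t ht hut
          by_cases htw : t = w
          · exact Or.inr htw
          · left
            rw [hE] at hu ⊢
            refine cmp_closed hu ?_ hut
            rw [Finset.mem_erase, Finset.mem_insert]
            refine ⟨htw, ?_⟩
            rw [← hE] at hu
            rcases hcl u (hED u hu).1 t ht hut with h | h
            · exact Or.inr h
            · exact Or.inl h⟩
      omega
    intro a ha c hc haw hcw
    exact (hkey a ha haw).trans (hkey c hc hcw).symm

/-- In a connected set `Z` with all degrees at least `d` there is a part `D` (all of `Z`, or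
attached to the rest at one vertex `b`) such that every `v ∈ D` is joined to every other vertex
of `Z` by a path with at least `d + 1` vertices. -/
theorem exists_rich {G : SimpleGraph V} [DecidableRel G.Adj] {Z : Finset V} {d : ℕ}
    (hd3 : 3 ≤ d) (hne : Z.Nonempty) (hd : ∀ v ∈ Z, d ≤ dU G Z v)
    (hconn : ∀ a ∈ Z, ∀ c ∈ Z, Reach G Z a c) :
    ∃ D : Finset V, D.Nonempty ∧ D ⊆ Z ∧ (D = Z ∨ ∃ b, Part G Z D b) ∧
      ∀ v ∈ D, ∀ x ∈ Z, v ≠ x →
        ∃ Q : List V, Seg G Q v x ∧ Q.Nodup ∧ (∀ t ∈ Q, t ∈ Z) ∧ d + 1 ≤ Q.length := by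
  by_cases hex : ∃ (D : Finset V) (b : V), Part G Z D b
  · -- the smallest part
    obtain ⟨m, ⟨D, b, hP, hm⟩, hmin⟩ : ∃ m, (∃ D b, Part G Z D b ∧ D.card = m) ∧
        ∀ m', (∃ D b, Part G Z D b ∧ D.card = m') → m ≤ m' := by
      have hne' : {m | ∃ D b, Part G Z D b ∧ D.card = m}.Nonempty := by
        obtain ⟨D, b, h⟩ := hex
        exact ⟨_, D, b, h, rfl⟩
      exact ⟨sInf {m | ∃ D b, Part G Z D b ∧ D.card = m}, Nat.sInf_mem hne',
        fun m' hm' => Nat.sInf_le hm'⟩
    have h2 := part_two hP hconn (fun D' b' h => by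
      rw [hm]
      exact hmin _ ⟨D', b', h, rfl⟩)
    have hP' := hP
    obtain ⟨hDne, hsub, hb, hbD, ⟨r, hrZ, hrD, hrb⟩, hcl⟩ := hP'
    have hBZ : insert b D ⊆ Z := by
      intro u hu
      rcases Finset.mem_insert.1 hu with h | h
      · rw [h]; exact hb
      · exact hsub h
    -- inside `B`
    have hin : ∀ v ∈ D, ∀ x ∈ insert b D, v ≠ x →
        ∃ Q : List V, Seg G Q v x ∧ Q.Nodup ∧ (∀ t ∈ Q, t ∈ insert b D) ∧ d + 1 ≤ Q.length := by
      intro v hv x hx hvx
      have hdB : ∀ u ∈ D, d ≤ dU G (insert b D) u := by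
        intro u hu
        refine (hd u (hsub hu)).trans (dU_le_of_sub ?_)
        intro t ht hut
        rw [Finset.mem_insert]
        rcases hcl u hu t ht hut with h | h
        · exact Or.inr h
        · exact Or.inl h
      have hvB : v ∈ insert b D := Finset.mem_insert_of_mem hv
      apply egz (insert b D).card (insert b D) v x b d le_rfl hvB hx hvx
      · intro w hw u hu huw
        by_cases hvw : v = w
        · right
          have hxw : x ≠ w := fun h => hvx (hvw.trans h.symm)
          exact ⟨hxw, h2 w hw u hu x hx huw hxw⟩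
        · left
          exact ⟨hvw, h2 w hw u hu v hvB huw hvw⟩
      · obtain ⟨t, htB, hvt, h3, h4⟩ := exists_nb_ne (a := x) (b := b) (hd3.trans (hdB v hv))
        exact ⟨t, htB, hvt.ne', h3, h4⟩
      · intro u hu _ _ hub
        apply hdB
        rw [Finset.mem_insert] at hu
        tauto
    refine ⟨D, hDne, hsub, Or.inr ⟨b, hP⟩, ?_⟩
    intro v hv x hx hvx
    by_cases hxB : x ∈ insert b D
    · obtain ⟨Q, h3, h4, h5, h6⟩ := hin v hv x hxB hvx
      exact ⟨Q, h3, h4, fun t ht => hBZ (h5 t ht), h6⟩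
    · have hvb : v ≠ b := fun h => hbD (h ▸ hv)
      obtain ⟨Q, h3, h4, h5, h6⟩ := hin v hv b (Finset.mem_insert_self _ _) hvb
      have hxD : x ∉ D := fun h => hxB (Finset.mem_insert_of_mem h)
      have hxb : Reach G (Z \ D) x b := by
        have h7 := avoid_self (U := Z) (D := D) (w := b) (x := x) hcl hxD (hconn b hb x hx)
        exact h7.symm
      obtain ⟨Q', h8, h9, h10, h11⟩ := glue (d := d) (A := Z \ D) (B := insert b D)
        (Finset.mem_sdiff.2 ⟨hx, hxD⟩) hxb h3.rev (List.nodup_reverse.2 h4)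
        (fun t ht => h5 t (List.mem_reverse.1 ht)) (by
          intro t ht ht'
          rw [Finset.mem_sdiff] at ht
          rw [Finset.mem_insert] at ht'
          tauto) (by simpa using h6)
      refine ⟨Q'.reverse, h8.rev, List.nodup_reverse.2 h9, ?_, by simpa using h11⟩
      intro t ht
      rcases Finset.mem_union.1 (h10 t (List.mem_reverse.1 ht)) with h | h
      · exact (Finset.mem_sdiff.1 h).1
      · exact hBZ h
  · refine ⟨Z, hne, Finset.Subset.refl _, Or.inl rfl, ?_⟩
    intro v hv x hx hvx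
    apply eg_two hd3 hd ?_ hv hx hvx
    intro w hw a ha c hc haw hcw
    by_contra hcon
    apply hex
    refine ⟨cmp G (Z.erase w) a, w, ⟨a, self_mem_cmp (Finset.mem_erase.2 ⟨haw, ha⟩)⟩,
      fun u hu => (Finset.mem_erase.1 (cmp_sub hu)).2, hw,
      fun h => (Finset.mem_erase.1 (cmp_sub h)).1 rfl, ⟨c, hc, fun h => hcon (mem_cmp.1 h).2, hcw⟩, ?_⟩
    intro u hu t ht hut
    by_cases htw : t = w
    · exact Or.inr htw
    · exact Or.inl (cmp_closed hu (Finset.mem_erase.2 ⟨htw, ht⟩) hut)

end Pool.Agent.H89E
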